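import Pool.Agent.Helper98_EU.LemmaR

/-! # DH: removing edges inside a tiny ball -/

open Set Metric Topology unitInterval

noncomputable section

namespace Pool.Agent.EU

universe u v

namespace H98

variable {X : Type u} [MetricSpace X] {ι : Type v} (𝓔 : EdgeSys X ι)

theorem small_closure {r : ℝ} {A : Set X} (h : Small r A) : Small r (closure A) := by
  have h1 : closure A ×ˢ closure A ⊆ {p : X × X | dist p.1 p.2 ≤ r} := by
    rw [← closure_prod_eq]
    apply closure_minimal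
    · rintro ⟨a, b⟩ ⟨ha, hb⟩; exact h a ha b hb
    · exact isClosed_le (continuous_dist) continuous_const
  intro y hy z hz
  exact h1 (show (y, z) ∈ closure A ×ˢ closure A from ⟨hy, hz⟩)

theorem small_mono {r s : ℝ} {A B : Set X} (hAB : A ⊆ B) (hrs : r ≤ s) (h : Small r B) :
    Small s A := fun y hy z hz => (h y (hAB hy) z (hAB hz)).trans hrs

/-- an end of an edge met by a connected set -/
theorem exists_end {Q : Set X} (hQ : IsPreconnected Q) {k y : X} {i : ι} (hk : k ∈ Q)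
    (hki : k ∈ 𝓔.o i) (hy : y ∈ Q) (hyi : y ∉ 𝓔.o i) :
    ∃ g ∈ Q, g = 𝓔.φ i 0 ∨ g = 𝓔.φ i 1 := by
  obtain ⟨g, hgQ, hgf⟩ := meets_frontier hQ (o_open 𝓔 i) hk hki (fun h => hyi (h hy))
  refine ⟨g, hgQ, ?_⟩
  rw [(o_open 𝓔 i).frontier_eq, closure_o, c_eq] at hgf
  obtain ⟨h1, h2⟩ := hgf
  rcases h1 with h1 | h1 | h1
  · exact absurd h1 h2
  · exact Or.inl h1
  · exact Or.inr h1

theorem dh [CompactSpace X] : 𝓔.DHStmt := by
  intro S S' V θ u ρ _ _ hSS' hθ hρ hρθ hroot hbig hloc x hx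
  -- the removed part
  set Δ : Set X := ⋃ i ∈ S' \ S, 𝓔.o i with hΔ
  have hΔo : IsOpen Δ := isOpen_biUnion fun i _ => o_open 𝓔 i
  have hΔb : Δ ⊆ ball u ρ := iUnion₂_subset fun i hi => (o_sub_c 𝓔 i).trans (hloc i hi)
  have hY : ∀ z, z ∈ 𝓔.Y S → z ∉ Δ → z ∈ 𝓔.Y S' := by
    intro z hz hzΔ h
    obtain ⟨i, hi, hzi⟩ := mem_iUnion₂.mp h
    by_cases hiS : i ∈ S
    · exact notMem_o_of_mem_Y 𝓔 hz hiS hzi
    · exact hzΔ (mem_iUnion₂.mpr ⟨i, ⟨hi, hiS⟩, hzi⟩)
  have hY' : 𝓔.Y S' ⊆ 𝓔.Y S := Y_anti 𝓔 hSS'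
  have hcomp : ∀ z, 𝓔.comp S' z ⊆ 𝓔.comp S z := fun z => connectedComponentIn_mono _ hY'
  have hxY' : x ∈ 𝓔.Y S' := G_sub_Y 𝓔 S' hx
  set Z := 𝓔.comp S' x with hZ
  have hxZ : x ∈ Z := mem_comp_self 𝓔 hxY'
  by_cases hZb : Z ⊆ ball u (3 * θ)
  · have hZs : Small (12 * θ) Z :=
      small_of_sub_closedBall (hZb.trans ball_subset_closedBall) (by linarith)
    by_cases hv : ∃ v ∈ V, v ∈ Z
    · exact Or.inl ⟨Z, comp_sub_Y 𝓔 S' x, comp_preconn 𝓔 S' x, hxZ, hv, hZs⟩
    · right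
      exact ⟨fun v hv' hvZ => hv ⟨v, hv', hvZ⟩, hZs⟩
  rcases hroot x hx with ⟨C0, hC0Y, hC0p, hxC0, ⟨v, hvV, hvC0⟩, hC0s⟩ | ⟨hno, hsm⟩
  swap
  · right
    exact ⟨fun v hv' hvZ => hno v hv' (hcomp x hvZ), small_mono (hcomp x) (by linarith) hsm⟩
  -- the closed version
  set C := closure C0 with hC
  have hCY : C ⊆ 𝓔.Y S := closure_minimal hC0Y (Y_closed 𝓔 S)
  have hCp : IsPreconnected C := hC0p.closure
  have hxC : x ∈ C := subset_closure hxC0
  have hvC : v ∈ C := subset_closure hvC0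
  have hCs : Small θ C := small_closure hC0s
  have hCc : IsCompact C := isClosed_closure.isCompact
  by_cases hCΔ : Disjoint C Δ
  · left
    exact ⟨C, fun z hz => hY z (hCY hz) (fun h => hCΔ.le_bot ⟨hz, h⟩), hCp, hxC, ⟨v, hvV, hvC⟩,
      small_mono Subset.rfl (by linarith) hCs⟩
  have hxΔ : x ∉ Δ := by
    intro h
    obtain ⟨i, _, hxi⟩ := mem_iUnion₂.mp h
    exact notMem_o_of_mem_G 𝓔 hx i hxi
  obtain ⟨y, hyCx, hyP⟩ := touch C Δ (closure Δ) hCc hCp hΔo isClosed_closure Subset.rfl (by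
    obtain ⟨z, hz⟩ := not_disjoint_iff.mp hCΔ
    exact ⟨z, hz.1, subset_closure hz.2⟩) x ⟨hxC, hxΔ⟩
  set Cx := connectedComponentIn (C \ Δ) x with hCx
  have hCxsub : Cx ⊆ C \ Δ := connectedComponentIn_subset _ _
  have hCxY' : Cx ⊆ 𝓔.Y S' := fun z hz => hY z (hCY (hCxsub hz).1) (hCxsub hz).2
  have hCxp : IsPreconnected Cx := isPreconnected_connectedComponentIn
  have hxCx : x ∈ Cx := mem_connectedComponentIn ⟨hxC, hxΔ⟩
  have hyu : dist y u ≤ ρ := by
    have : closure Δ ⊆ closedBall u ρ :=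
      closure_minimal (hΔb.trans ball_subset_closedBall) isClosed_closedBall
    exact this hyP
  have hyZ : y ∈ Z := sub_comp 𝓔 hCxY' hCxp hxCx hyCx
  have hyG : y ∈ 𝓔.G := by
    apply Y_inter_R 𝓔 S' (hCxY' hyCx)
    exact (closure_mono (biUnion_subset_biUnion_left (sdiff_subset : S' \ S ⊆ S'))) hyP
  obtain ⟨k, hkQ, hku⟩ := bb Z u y (3 * θ) (comp_closed 𝓔 S' x).isCompact (comp_preconn 𝓔 S' x) hyZ
    (by linarith) hZb
  set Q := connectedComponentIn (Z ∩ closedBall u (3 * θ)) y with hQ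
  have hQsub : Q ⊆ Z ∩ closedBall u (3 * θ) := connectedComponentIn_subset _ _
  have hQp : IsPreconnected Q := isPreconnected_connectedComponentIn
  have hyQ : y ∈ Q := mem_connectedComponentIn ⟨hyZ, mem_closedBall.mpr (by linarith)⟩
  have hQY' : Q ⊆ 𝓔.Y S' := fun z hz => comp_sub_Y 𝓔 S' x (hQsub hz).1
  have hCxb : Cx ⊆ closedBall u (3 * θ) := by
    intro z hz
    rw [mem_closedBall]
    have h1 := hCs z (hCxsub hz).1 y (hCxsub hyCx).1
    have := dist_triangle z y u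
    linarith
  -- union of the two
  have hU : IsPreconnected (Cx ∪ Q) := hCxp.union y hyCx hyQ hQp
  -- finishing lemma
  have hfin : ∀ g ∈ Q, g ∈ 𝓔.G → 2 * θ ≤ dist g u → 
      (∃ C ⊆ 𝓔.Y S', IsPreconnected C ∧ x ∈ C ∧ (∃ v ∈ V, v ∈ C) ∧ Small (12 * θ) C) := by
    intro g hgQ hgG hgu
    rcases hroot g hgG with ⟨Cg, hCgY, hCgp, hgCg, ⟨w, hwV, hwCg⟩, hCgs⟩ | ⟨hno, hsm⟩
    · have hCgb : Cg ⊆ closedBall u (4 * θ) := by
        intro z hz
        rw [mem_closedBall]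
        have h1 := hCgs z hz g hgCg
        have h2 := mem_closedBall.mp (hQsub hgQ).2
        have := dist_triangle z g u
        linarith
      have hCgY' : Cg ⊆ 𝓔.Y S' := by
        intro z hz
        refine hY z (hCgY hz) (fun h => ?_)
        have h1 := mem_ball.mp (hΔb h)
        have h2 := hCgs z hz g hgCg
        have := dist_triangle g z u
        rw [dist_comm] at h2
        linarith
      refine ⟨(Cx ∪ Q) ∪ Cg, union_subset (union_subset hCxY' hQY') hCgY',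
        hU.union g (Or.inr hgQ) hgCg hCgp, Or.inl (Or.inl hxCx), ⟨w, hwV, Or.inr hwCg⟩, ?_⟩
      apply small_of_sub_closedBall (x := u) (r := 4 * θ) _ (by linarith)
      refine union_subset (union_subset ?_ ?_) hCgb
      · exact hCxb.trans (closedBall_subset_closedBall (by linarith))
      · exact fun z hz => closedBall_subset_closedBall (by linarith) (hQsub hz).2
    · exfalso
      have hg : g ∈ 𝓔.comp S x := hcomp x (hQsub hgQ).1
      have hy' : y ∈ 𝓔.comp S g := by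
        rw [← comp_eq 𝓔 hg]; exact hcomp x hyZ
      have h1 := hsm y hy' g (mem_comp_self 𝓔 (comp_sub_Y 𝓔 S x hg))
      have := dist_triangle g y u
      rw [dist_comm] at h1
      linarith
  left
  by_cases hkG : k ∈ 𝓔.G
  · exact hfin k hkQ hkG (by linarith)
  · have hkG' : k ∈ ⋃ i, 𝓔.o i := by
      by_contra h; exact hkG h
    obtain ⟨i, hki⟩ := mem_iUnion.mp hkG'
    have hiS' : i ∉ S' := fun h => notMem_o_of_mem_Y 𝓔 (hQY' hkQ) h hki
    have hiS : i ∉ S := fun h => hiS' (hSS' h)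
    obtain ⟨g, hgQ, hg⟩ := exists_end 𝓔 hQp hkQ hki hyQ (notMem_o_of_mem_G 𝓔 hyG i)
    have hgG : g ∈ 𝓔.G := by
      rcases hg with rfl | rfl
      · exact end0_mem_G 𝓔 i
      · exact end1_mem_G 𝓔 i
    have hgc : g ∈ 𝓔.c i := by
      rcases hg with rfl | rfl
      · exact ⟨0, rfl⟩
      · exact ⟨1, rfl⟩
    by_cases hgu : 2 * θ ≤ dist g u
    · exact hfin g hgQ hgG hgu
    · push Not at hgu
      have hns : ¬ Small θ (𝓔.c i) := by
        intro h
        have h1 := h k (o_sub_c 𝓔 i hki) g hgc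
        have := dist_triangle k g u
        linarith
      have hgV : g ∈ V := by
        obtain ⟨h0, h1⟩ := hbig i hiS hns
        rcases hg with rfl | rfl
        · exact h0
        · exact h1
      refine ⟨Cx ∪ Q, union_subset hCxY' hQY', hU, Or.inl hxCx, ⟨g, hgV, Or.inr hgQ⟩, ?_⟩
      apply small_of_sub_closedBall (x := u) (r := 3 * θ) _ (by linarith)
      exact union_subset hCxb fun z hz => (hQsub hz).2

end H98

end Pool.Agent.EU
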