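import Pool.Agent.Helper17_EU.StmtsT

/-! # GT: general topology (TOUCH, BB, SEP) -/

open Set Metric Topology

noncomputable section

namespace Pool.Agent.EU

universe u v

namespace H98

variable {X : Type u} [MetricSpace X]

/-- A component of a compact set which misses a closed set `P` is contained in a clopen subset missing `P`. -/
theorem exists_clopen_of_disjoint {H P : Set X} (hH : IsCompact H) (hP : IsClosed P) {x : X}
    (hx : x ∈ H) (hd : Disjoint (connectedComponentIn H x) P) :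
    ∃ K ⊆ H, IsClosed K ∧ IsClosed (H \ K) ∧ x ∈ K ∧ Disjoint K P := by
  classical
  have : CompactSpace H := isCompact_iff_compactSpace.mp hH
  rw [connectedComponentIn_eq_image hx] at hd
  -- the trace of `P`
  set P' : Set H := Subtype.val ⁻¹' P with hP'
  have hP'c : IsClosed P' := hP.preimage continuous_subtype_val
  have hcc : connectedComponent (⟨x, hx⟩ : H) ∩ P' = ∅ := by
    rw [← Set.not_nonempty_iff_eq_empty]
    rintro ⟨y, hy, hyP⟩
    exact hd.le_bot ⟨⟨y, hy, rfl⟩, hyP⟩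
  rw [connectedComponent_eq_iInter_isClopen] at hcc
  -- find a clopen set
  have : Nonempty { s : Set H // IsClopen s ∧ (⟨x, hx⟩ : H) ∈ s } :=
    ⟨⟨univ, isClopen_univ, mem_univ _⟩⟩
  obtain ⟨s, hs⟩ := hP'c.isCompact.elim_directed_family_closed
    (fun s : { s : Set H // IsClopen s ∧ (⟨x, hx⟩ : H) ∈ s } => (s : Set H))
    (fun s => s.2.1.1) (by rw [inter_comm]; exact hcc)
    (by
      intro a b
      refine ⟨⟨a.1 ∩ b.1, a.2.1.inter b.2.1, a.2.2, b.2.2⟩, ?_, ?_⟩
      · exact inter_subset_left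
      · exact inter_subset_right)
  refine ⟨Subtype.val '' s.1, ?_, ?_, ?_, ⟨⟨x, hx⟩, s.2.2, rfl⟩, ?_⟩
  · rintro _ ⟨y, -, rfl⟩; exact y.2
  · exact (s.2.1.1.isCompact.image continuous_subtype_val).isClosed
  · have : H \ (Subtype.val '' s.1) = Subtype.val '' (s.1ᶜ) := by
      ext z
      constructor
      · rintro ⟨hz, hz'⟩
        exact ⟨⟨z, hz⟩, fun h => hz' ⟨_, h, rfl⟩, rfl⟩
      · rintro ⟨y, hy, rfl⟩
        refine ⟨y.2, ?_⟩
        rintro ⟨y', hy', he⟩
        exact hy (by rwa [Subtype.ext he] at hy')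
    rw [this]
    exact (s.2.1.compl.1.isCompact.image continuous_subtype_val).isClosed
  · rw [Set.disjoint_left]
    rintro _ ⟨y, hy, rfl⟩ hyP
    have : y ∈ P' ∩ s.1 := ⟨hyP, hy⟩
    rw [hs] at this
    exact this

theorem touch : TouchStmt X := by
  intro C D P hC hCc hD hP hDP hCP x hx
  by_contra hne
  rw [Set.not_nonempty_iff_eq_empty, ← Set.disjoint_iff_inter_eq_empty] at hne
  obtain ⟨K, hKH, hKc, hKc', hxK, hKP⟩ := exists_clopen_of_disjoint (hC.diff hD) hP hx hne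
  have h1 := isPreconnected_closed_iff.mp hCc K ((C \ D) \ K ∪ C ∩ closure D) hKc
    (hKc'.union (hC.isClosed.inter isClosed_closure))
    (by
      intro y hy
      by_cases hyK : y ∈ K
      · exact Or.inl hyK
      · by_cases hyD : y ∈ D
        · exact Or.inr (Or.inr ⟨hy, subset_closure hyD⟩)
        · exact Or.inr (Or.inl ⟨⟨hy, hyD⟩, hyK⟩))
    ⟨x, hx.1, hxK⟩
    (by
      obtain ⟨p, hpC, hpP⟩ := hCP
      refine ⟨p, hpC, ?_⟩
      have hpK : p ∉ K := fun h => hKP.le_bot ⟨h, hpP⟩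
      by_cases hpD : p ∈ D
      · exact Or.inr ⟨hpC, subset_closure hpD⟩
      · exact Or.inl ⟨⟨hpC, hpD⟩, hpK⟩)
  obtain ⟨z, hzC, hzK, hz | hz⟩ := h1
  · exact hz.2 hzK
  · exact hKP.le_bot ⟨hzK, hDP hz.2⟩

theorem bb : BBStmt X := by
  intro Z u y r hZ hZc hy hyr hnot
  by_contra hne
  push Not at hne
  have hyH : y ∈ Z ∩ closedBall u r := ⟨hy, by rw [mem_closedBall]; exact hyr.le⟩
  have hd : Disjoint (connectedComponentIn (Z ∩ closedBall u r) y) (sphere u r) := by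
    rw [Set.disjoint_left]
    intro k hk hks
    exact hne k hk hks
  obtain ⟨K, hKH, hKc, hKc', hyK, hKP⟩ := exists_clopen_of_disjoint
    (hZ.inter_right isClosed_closedBall) isClosed_sphere hyH hd
  have hKball : K ⊆ ball u r := by
    intro z hz
    have h1 : dist z u ≤ r := (hKH hz).2
    have h2 : dist z u ≠ r := fun h => hKP.le_bot ⟨hz, h⟩
    exact lt_of_le_of_ne h1 h2
  apply hnot
  obtain ⟨w, hwZ, hwb⟩ := Set.not_subset.mp hnot
  have h1 := isPreconnected_closed_iff.mp hZc K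
    (((Z ∩ closedBall u r) \ K) ∪ Z ∩ (ball u r)ᶜ) hKc
    (hKc'.union (hZ.isClosed.inter isOpen_ball.isClosed_compl))
    (by
      intro z hz
      by_cases hzK : z ∈ K
      · exact Or.inl hzK
      · by_cases hzb : z ∈ ball u r
        · exact Or.inr (Or.inl ⟨⟨hz, ball_subset_closedBall hzb⟩, hzK⟩)
        · exact Or.inr (Or.inr ⟨hz, hzb⟩))
    ⟨y, hy, hyK⟩ ⟨w, hwZ, Or.inr ⟨hwZ, hwb⟩⟩
  obtain ⟨z, hzC, hzK, hz | hz⟩ := h1
  · exact absurd hzK hz.2
  · exact absurd (hKball hzK) hz.2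

theorem sep : SepStmt X := by
  classical
  intro H P Q hH hPH hQH hP hQ hd
  have hPcomp : IsCompact P := hH.of_isClosed_subset hP hPH
  choose! K hKH hKc hKc' hxK hKQ using fun x (hx : x ∈ P) =>
    exists_clopen_of_disjoint hH hQ (hPH hx) (hd x hx)
  obtain ⟨t, hcov⟩ := hPcomp.elim_nhds_subcover' (fun x _ => (H \ K x)ᶜ)
    (fun x hx => (hKc' x hx).isOpen_compl.mem_nhds (fun h => h.2 (hxK x hx)))
  refine ⟨⋃ x ∈ t, K x, ?_, ?_, ?_, ?_, ?_⟩
  · exact iUnion₂_subset fun x _ => hKH x x.2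
  · exact t.finite_toSet.isClosed_biUnion fun x _ => hKc x x.2
  · have : H \ (⋃ x ∈ t, K x) = H ∩ ⋂ x ∈ t, (H \ K x) := by
      ext z
      simp only [Set.mem_sdiff, mem_iUnion, not_exists, mem_inter_iff, mem_iInter]
      constructor
      · rintro ⟨hz, h⟩; exact ⟨hz, fun x hx => ⟨hz, h x hx⟩⟩
      · rintro ⟨hz, h⟩; exact ⟨hz, fun x hx => (h x hx).2⟩
    rw [this]
    exact hH.isClosed.inter (isClosed_biInter fun x _ => hKc' x x.2)
  · intro z hz
    obtain ⟨x, hxt, hzx⟩ := mem_iUnion₂.mp (hcov hz)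
    refine mem_iUnion₂.mpr ⟨x, hxt, ?_⟩
    by_contra h
    exact hzx ⟨hPH hz, h⟩
  · rw [Set.disjoint_left]
    intro z hz hzQ
    obtain ⟨x, _, hzx⟩ := mem_iUnion₂.mp hz
    exact (hKQ x x.2).le_bot ⟨hzx, hzQ⟩

end H98

end Pool.Agent.EU
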