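import Pool.Agent.Helper98_EU.Basic

/-! # LEMMAR: thin sets of edges -/

open Set Metric Topology unitInterval

noncomputable section

namespace Pool.Agent.EU

universe u v

namespace H98

variable {X : Type u} [MetricSpace X] {ι : Type v} (𝓔 : EdgeSys X ι)

/-! ## thin unions -/

theorem thin_union [CompactSpace X] : 𝓔.ThinUnionStmt := by
  intro S T hS hT C hCG hCR hC
  -- closure
  by_contra hns
  rw [not_subsingleton_iff] at hns
  set D := closure C with hD
  have hDG : D ⊆ 𝓔.G := closure_minimal hCG (G_closed 𝓔)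
  have hDR : D ⊆ 𝓔.R S ∪ 𝓔.R T := by
    rw [← R_union]; exact closure_minimal hCR (R_closed 𝓔 _)
  have hDp : IsPreconnected D := hC.closure
  have hDc : IsCompact D := isClosed_closure.isCompact
  have hDn : D.Nontrivial := hns.mono subset_closure
  by_cases hDS : D ⊆ 𝓔.R S
  · exact hDn.not_subsingleton (hS D hDG hDS hDp)
  · obtain ⟨b, hbD, hbS⟩ := not_subset.mp hDS
    obtain ⟨r, hr, hball⟩ := Metric.nhds_basis_closedBall.mem_iff.mp
      ((R_closed 𝓔 S).isOpen_compl.mem_nhds hbS)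
    by_cases hDb : D ⊆ ball b r
    · have : D ⊆ 𝓔.R T := fun z hz => (hDR hz).resolve_left
        (hball (ball_subset_closedBall (hDb hz)))
      exact hDn.not_subsingleton (hT D hDG this hDp)
    · obtain ⟨k, hk, hkr⟩ := bb D b b r hDc hDp hbD (by simpa using hr) hDb
      set K := connectedComponentIn (D ∩ closedBall b r) b with hK
      have hKsub : K ⊆ D ∩ closedBall b r := connectedComponentIn_subset _ _
      have hbK : b ∈ K := mem_connectedComponentIn ⟨hbD, by simpa using hr.le⟩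
      have h1 : K.Subsingleton := hT K (fun z hz => hDG (hKsub hz).1)
        (fun z hz => (hDR (hKsub hz).1).resolve_left (hball (hKsub hz).2))
        isPreconnected_connectedComponentIn
      have := h1 hk hbK
      rw [this, dist_self] at hkr
      linarith

/-! ## thin arcs -/

theorem thin_arc : 𝓔.ThinArcStmt := by
  intro a C hCG hCR hC
  have hemb : IsClosedEmbedding a.f := a.f.continuous.isClosedEmbedding a.inj
  have hR : 𝓔.R a.E ⊆ range a.f := by
    apply closure_minimal _ hemb.isClosed_range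
    exact iUnion₂_subset fun i hi => hi
  have hCr : C ⊆ range a.f := hCR.trans hR
  intro x hx y hy
  by_contra hxy
  obtain ⟨s, rfl⟩ := hCr hx
  obtain ⟨t, rfl⟩ := hCr hy
  have hst : s ≠ t := fun h => hxy (by rw [h])
  -- wlog s < t
  have key : ∀ s t : I, a.f s ∈ C → a.f t ∈ C → s < t → False := by
    intro s t hs ht hlt
    have hpre : IsPreconnected (a.f ⁻¹' C) := by
      rw [← hemb.isInducing.isPreconnected_image, image_preimage_eq_of_subset hCr]
      exact hC
    have hIcc : Icc s t ⊆ a.f ⁻¹' C := hpre.ordConnected.out hs ht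
    obtain ⟨w, hw1, hw2⟩ := exists_between hlt
    have hwC : a.f w ∈ C := hIcc ⟨hw1.le, hw2.le⟩
    obtain ⟨V, hV, hVe⟩ := hemb.isInducing.isOpen_iff.mp (isOpen_Ioo : IsOpen (Ioo s t))
    have hwV : a.f w ∈ V := by
      have : w ∈ a.f ⁻¹' V := by rw [hVe]; exact ⟨hw1, hw2⟩
      exact this
    obtain ⟨z, hzV, hz⟩ := mem_closure_iff.mp (hCR hwC) V hV hwV
    obtain ⟨i, hi, hzi⟩ := mem_iUnion₂.mp hz
    obtain ⟨τ, rfl⟩ := hi hzi
    have hτ : τ ∈ Ioo s t := by rw [← hVe]; exact hzV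
    exact notMem_o_of_mem_G 𝓔 (hCG (hIcc ⟨hτ.1.le, hτ.2.le⟩)) i hzi
  rcases lt_or_gt_of_ne hst with h | h
  · exact key s t hx hy h
  · exact key t s hy hx h

/-! ## Y3 -/

theorem y3 [ConnectedSpace X] [LocallyConnectedSpace X] : 𝓔.Y3Stmt := by
  intro S hS x hx
  by_contra hne
  rw [Set.not_nonempty_iff_eq_empty] at hne
  have hopen : IsOpen (𝓔.comp S x) := by
    rw [isOpen_iff_mem_nhds]
    intro z hz
    have hzR : z ∈ (𝓔.R S)ᶜ := fun h => by
      have : z ∈ 𝓔.comp S x ∩ 𝓔.R S := ⟨hz, h⟩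
      rw [hne] at this; exact this
    have h1 : connectedComponentIn (𝓔.R S)ᶜ z ∈ 𝓝 z :=
      connectedComponentIn_mem_nhds ((R_closed 𝓔 S).isOpen_compl.mem_nhds hzR)
    refine Filter.mem_of_superset h1 ?_
    rw [comp_eq 𝓔 hz]
    exact sub_comp 𝓔 ((connectedComponentIn_subset _ _).trans (R_compl_sub_Y 𝓔 S))
      isPreconnected_connectedComponentIn (mem_connectedComponentIn hzR)
  have hclopen : IsClopen (𝓔.comp S x) := ⟨comp_closed 𝓔 S x, hopen⟩
  have huniv := hclopen.eq_univ ⟨x, mem_comp_self 𝓔 hx⟩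
  obtain ⟨i, hi⟩ := hS
  obtain ⟨z, hz⟩ := o_nonempty 𝓔 i
  have : z ∈ 𝓔.comp S x := by rw [huniv]; trivial
  exact notMem_o_of_mem_Y 𝓔 (comp_sub_Y 𝓔 S x this) hi hz

/-! ## zero-dimensional neighbourhoods -/

theorem exists_zd [CompactSpace X] {S : Set ι} (hS : 𝓔.Thin S) {x : X} (hx : x ∈ 𝓔.G ∩ 𝓔.R S)
    {ρ : ℝ} (hρ : 0 < ρ) : ∃ W : Set X, IsOpen W ∧ x ∈ W ∧ closure W ⊆ ball x ρ ∧
      Disjoint (frontier W) (𝓔.G ∩ 𝓔.R S) := by
  set A := 𝓔.G ∩ 𝓔.R S with hA
  have hAc : IsClosed A := (G_closed 𝓔).inter (R_closed 𝓔 S)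
  have hcomp : connectedComponentIn A x = {x} := by
    have h1 : (connectedComponentIn A x).Subsingleton := hS _
      ((connectedComponentIn_subset _ _).trans inter_subset_left)
      ((connectedComponentIn_subset _ _).trans inter_subset_right)
      isPreconnected_connectedComponentIn
    exact h1.eq_singleton_of_mem (mem_connectedComponentIn hx)
  obtain ⟨K, hKA, hKc, hKc', hxK, hKd⟩ := exists_clopen_of_disjoint (P := (ball x ρ)ᶜ)
    hAc.isCompact isOpen_ball.isClosed_compl hx (by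
      rw [hcomp, disjoint_singleton_left]
      intro h; exact h (mem_ball_self hρ))
  have hKt : K ⊆ ball x ρ ∩ (A \ K)ᶜ := by
    intro z hz
    refine ⟨?_, fun h => h.2 hz⟩
    by_contra h
    exact hKd.le_bot ⟨hz, h⟩
  obtain ⟨W, hW, hKW, hWt⟩ := normal_exists_closure_subset hKc
    (isOpen_ball.inter hKc'.isOpen_compl) hKt
  refine ⟨W, hW, hKW hxK, hWt.trans inter_subset_left, ?_⟩
  rw [Set.disjoint_left]
  intro z hz hzA
  rw [hW.frontier_eq] at hz
  have h1 := (hWt hz.1).2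
  have h2 : z ∈ K := by
    by_contra h
    exact h1 ⟨hzA, h⟩
  exact hz.2 (hKW h2)

/-- a preconnected set which meets `W` and its complement meets the frontier of `W` -/
theorem meets_frontier {C W : Set X} (hC : IsPreconnected C) (hW : IsOpen W) {p : X} (hp : p ∈ C)
    (hpW : p ∈ W) (hCW : ¬ C ⊆ W) : (C ∩ frontier W).Nonempty := by
  by_contra hne
  rw [Set.not_nonempty_iff_eq_empty] at hne
  obtain ⟨q, hq, hqW⟩ := not_subset.mp hCW
  have h1 := hC W (closure W)ᶜ hW isClosed_closure.isOpen_compl (by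
    intro z hz
    by_cases hzW : z ∈ W
    · exact Or.inl hzW
    · right
      intro hzc
      have : z ∈ C ∩ frontier W := ⟨hz, by rw [hW.frontier_eq]; exact ⟨hzc, hzW⟩⟩
      rw [hne] at this; exact this) ⟨p, hp, hpW⟩ ⟨q, hq, by
        intro hzc
        have : q ∈ C ∩ frontier W := ⟨hq, by rw [hW.frontier_eq]; exact ⟨hzc, hqW⟩⟩
        rw [hne] at this; exact this⟩
  obtain ⟨z, _, hz1, hz2⟩ := h1
  exact hz2 (subset_closure hz1)

/-- The local lemma: near a point of `Y S ∩ R S`. -/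
theorem local_lemma [CompactSpace X] [LocallyConnectedSpace X] {S : Set ι} (hS : 𝓔.Thin S) {x : X}
    (hx : x ∈ 𝓔.Y S) {ρ : ℝ} (hρ : 0 < ρ) : ∃ δ > 0, ∀ p ∈ 𝓔.Y S, dist p x < δ →
      𝓔.comp S p ⊆ ball x ρ ∨ p ∈ connectedComponentIn (𝓔.Y S ∩ closedBall x ρ) x := by
  classical
  by_cases hxR : x ∈ 𝓔.R S
  · have hxG : x ∈ 𝓔.G := Y_inter_R 𝓔 S hx hxR
    obtain ⟨W, hW, hxW, hWb, hWd⟩ := exists_zd 𝓔 hS ⟨hxG, hxR⟩ hρ
    set H := 𝓔.Y S ∩ closedBall x ρ with hH
    have hHc : IsClosed H := (Y_closed 𝓔 S).inter isClosed_closedBall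
    set F := frontier W ∩ 𝓔.Y S with hF
    have hFc : IsCompact F := (isClosed_frontier.inter (Y_closed 𝓔 S)).isCompact
    have hFnot : ∀ z ∈ F, z ∈ (𝓔.R S)ᶜ ∩ ball x ρ := by
      intro z hz
      refine ⟨fun h => hWd.le_bot ⟨hz.1, Y_inter_R 𝓔 S hz.2 h, h⟩, hWb hz.1.1⟩
    have hnb : ∀ z ∈ F, connectedComponentIn ((𝓔.R S)ᶜ ∩ ball x ρ) z ∈ 𝓝 z := fun z hz =>
      connectedComponentIn_mem_nhds
        (((R_closed 𝓔 S).isOpen_compl.inter isOpen_ball).mem_nhds (hFnot z hz))
    obtain ⟨t, ht⟩ := hFc.elim_nhds_subcover' _ hnb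
    -- for each z in F the component of z in H is one of the components of t
    have hcompz : ∀ z ∈ F, ∃ y ∈ t, connectedComponentIn H z = connectedComponentIn H y := by
      intro z hz
      obtain ⟨y, hyt, hzy⟩ := mem_iUnion₂.mp (ht hz)
      refine ⟨y, hyt, ?_⟩
      have h1 : connectedComponentIn ((𝓔.R S)ᶜ ∩ ball x ρ) (y : X) ⊆ connectedComponentIn H y :=
        connectedComponentIn_mono _ (inter_subset_inter (R_compl_sub_Y 𝓔 S) ball_subset_closedBall)
      exact (connectedComponentIn_eq (h1 hzy)).symm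
    -- the union of the components not containing x
    set B := ⋃ y ∈ t.filter (fun y : F => x ∉ connectedComponentIn H (y : X)),
      connectedComponentIn H (y : X) with hB
    have hBc : IsClosed B := (Finset.finite_toSet _).isClosed_biUnion fun y _ => isClosed_ccIn hHc _
    have hxB : x ∉ B := by
      intro h
      obtain ⟨y, hy, hxy⟩ := mem_iUnion₂.mp h
      exact (Finset.mem_filter.mp hy).2 hxy
    obtain ⟨δ, hδ, hδb⟩ := Metric.mem_nhds_iff.mp ((hW.inter hBc.isOpen_compl).mem_nhds ⟨hxW, hxB⟩)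
    refine ⟨δ, hδ, fun p hp hpx => ?_⟩
    by_cases hcb : 𝓔.comp S p ⊆ ball x ρ
    · exact Or.inl hcb
    right
    have hpWB := hδb (mem_ball.mpr hpx)
    have hpρ : p ∈ ball x ρ := hWb (subset_closure hpWB.1)
    -- the component of p in H
    obtain ⟨k, hk, hkρ⟩ := bb (𝓔.comp S p) x p ρ (comp_closed 𝓔 S p).isCompact (comp_preconn 𝓔 S p)
      (mem_comp_self 𝓔 hp) (mem_ball.mp hpρ) hcb
    set C := connectedComponentIn H p with hC
    have hkC : k ∈ C := connectedComponentIn_mono _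
      (inter_subset_inter_left _ (comp_sub_Y 𝓔 S p)) hk
    have hpH : p ∈ H := ⟨hp, ball_subset_closedBall hpρ⟩
    have hpC : p ∈ C := mem_connectedComponentIn hpH
    have hCW : ¬ C ⊆ W := by
      intro h
      have := hWb (subset_closure (h hkC))
      rw [mem_ball, hkρ] at this
      exact lt_irrefl _ this
    obtain ⟨z, hzC, hzW⟩ := meets_frontier isPreconnected_connectedComponentIn hW hpC hpWB.1 hCW
    have hzF : z ∈ F := ⟨hzW, (connectedComponentIn_subset _ _ hzC).1⟩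
    obtain ⟨y, hyt, hzy⟩ := hcompz z hzF
    have hCy : C = connectedComponentIn H y := by rw [← hzy]; exact connectedComponentIn_eq hzC
    by_cases hxy : x ∈ connectedComponentIn H (y : X)
    · rw [← connectedComponentIn_eq hxy, ← hCy]; exact hpC
    · exfalso
      apply hpWB.2
      refine mem_iUnion₂.mpr ⟨y, Finset.mem_filter.mpr ⟨hyt, hxy⟩, ?_⟩
      rw [← hCy]; exact hpC
  · -- x is not in R S
    have hn : connectedComponentIn ((𝓔.R S)ᶜ ∩ ball x ρ) x ∈ 𝓝 x :=
      connectedComponentIn_mem_nhds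
        (((R_closed 𝓔 S).isOpen_compl.inter isOpen_ball).mem_nhds ⟨hxR, mem_ball_self hρ⟩)
    obtain ⟨δ, hδ, hδb⟩ := Metric.mem_nhds_iff.mp hn
    refine ⟨δ, hδ, fun p _ hpx => Or.inr ?_⟩
    exact connectedComponentIn_mono _ (inter_subset_inter (R_compl_sub_Y 𝓔 S)
      ball_subset_closedBall) (hδb (mem_ball.mpr hpx))

theorem small_of_sub_closedBall {x : X} {r s : ℝ} {A : Set X} (h : A ⊆ closedBall x r)
    (hrs : 2 * r ≤ s) : Small s A := by
  intro y hy z hz
  have h1 := mem_closedBall.mp (h hy)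
  have h2 := mem_closedBall.mp (h hz)
  rw [dist_comm] at h2
  have := dist_triangle y x z
  linarith

theorem y1 [CompactSpace X] [LocallyConnectedSpace X] : 𝓔.Y1Stmt := by
  intro S hS θ hθ
  have hρ : 0 < θ / 2 := by positivity
  choose! δ hδ hloc using fun x (hx : x ∈ 𝓔.Y S) => local_lemma 𝓔 hS hx hρ
  obtain ⟨η, hη, hcov⟩ := lebesgue_number_lemma_of_metric (s := 𝓔.Y S)
    (c := fun x : 𝓔.Y S => ball (x : X) (δ x)) (Y_closed 𝓔 S).isCompact (fun _ => isOpen_ball)
    (fun x hx => mem_iUnion.mpr ⟨⟨x, hx⟩, mem_ball_self (hδ x hx)⟩)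
  refine ⟨η, hη, fun x y hx hy hxy => ?_⟩
  obtain ⟨⟨c, hc⟩, hball⟩ := hcov x hx
  have hyY : y ∈ 𝓔.Y S := comp_sub_Y 𝓔 S x hy
  have hxc : dist x c < δ c := hball (mem_ball_self hη)
  have hyc : dist y c < δ c := hball (by rw [mem_ball, dist_comm]; exact hxy)
  by_cases hsmall : 𝓔.comp S x ⊆ ball c (θ / 2)
  · exact ⟨𝓔.comp S x, comp_sub_Y 𝓔 S x, comp_preconn 𝓔 S x, mem_comp_self 𝓔 hx, hy,
      small_of_sub_closedBall (hsmall.trans ball_subset_closedBall) (by linarith)⟩
  · have h1 := (hloc c hc x hx hxc).resolve_left hsmall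
    have h2 := (hloc c hc y hyY hyc).resolve_left (by rw [← comp_eq 𝓔 hy]; exact hsmall)
    exact ⟨connectedComponentIn (𝓔.Y S ∩ closedBall c (θ / 2)) c,
      (connectedComponentIn_subset _ _).trans inter_subset_left,
      isPreconnected_connectedComponentIn, h1, h2,
      small_of_sub_closedBall ((connectedComponentIn_subset _ _).trans inter_subset_right)
        (by linarith)⟩

theorem y2 [CompactSpace X] [LocallyConnectedSpace X] : 𝓔.Y2Stmt := by
  intro S hS θ hθ
  have hρ : 0 < θ / 2 := by positivity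
  choose! δ hδ hloc using fun x (hx : x ∈ 𝓔.Y S) => local_lemma 𝓔 hS hx hρ
  obtain ⟨t, ht⟩ := (Y_closed 𝓔 S).isCompact.elim_nhds_subcover' (fun x _ => ball x (δ x))
    (fun x hx => ball_mem_nhds x (hδ x hx))
  apply ((t.finite_toSet).image (fun x : 𝓔.Y S => 𝓔.comp S x)).subset
  rintro Z ⟨x, hx, rfl, hns⟩
  obtain ⟨c, hct, hxc⟩ := mem_iUnion₂.mp (ht hx)
  refine ⟨c, hct, ?_⟩
  have h1 := (hloc c c.2 x hx hxc).resolve_left (fun h => hns
    (small_of_sub_closedBall (h.trans ball_subset_closedBall) (by linarith)))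
  exact comp_eq 𝓔 (connectedComponentIn_mono _ inter_subset_left h1)

end H98

end Pool.Agent.EU
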