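import Pool.Agent.Helper98_EU.GT

/-! # basic facts on edge systems -/

open Set Metric Topology unitInterval

noncomputable section

namespace Pool.Agent.EU

universe u v

namespace H98

variable {X : Type u} [MetricSpace X] {ι : Type v} (𝓔 : EdgeSys X ι)

theorem o_open (i : ι) : IsOpen (𝓔.o i) := 𝓔.opn i

theorem o_nonempty (i : ι) : (𝓔.o i).Nonempty := by
  have : (Ioo (0 : I) 1).Nonempty := ⟨⟨1 / 2, by norm_num, by norm_num⟩, by
    constructor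
    · rw [← Subtype.coe_lt_coe]; norm_num
    · rw [← Subtype.coe_lt_coe]; norm_num⟩
  exact this.image _

theorem o_sub_c (i : ι) : 𝓔.o i ⊆ 𝓔.c i := image_subset_range _ _

theorem c_compact (i : ι) : IsCompact (𝓔.c i) := isCompact_range (𝓔.φ i).continuous

theorem c_eq (i : ι) : 𝓔.c i = 𝓔.o i ∪ {𝓔.φ i 0, 𝓔.φ i 1} := by
  ext x
  constructor
  · rintro ⟨t, rfl⟩
    rcases eq_or_lt_of_le (unitInterval.nonneg' : 0 ≤ t) with h0 | h0
    · right; left; rw [← h0]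
    · rcases eq_or_lt_of_le (unitInterval.le_one' : t ≤ 1) with h1 | h1
      · right; right; rw [h1]; rfl
      · left; exact ⟨t, ⟨h0, h1⟩, rfl⟩
  · rintro (⟨t, _, rfl⟩ | h | h)
    · exact ⟨t, rfl⟩
    · rw [h]; exact ⟨0, rfl⟩
    · rw [mem_singleton_iff] at h; rw [h]; exact ⟨1, rfl⟩

theorem c_sub_closure_o (i : ι) : 𝓔.c i ⊆ closure (𝓔.o i) := by
  have h1 : closure (Ioo (0 : I) 1) = Icc 0 1 := closure_Ioo (by
    intro h
    have := congrArg Subtype.val h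
    norm_num at this)
  have h2 : 𝓔.c i = 𝓔.φ i '' closure (Ioo 0 1) := by
    rw [h1]
    ext x
    constructor
    · rintro ⟨t, rfl⟩; exact ⟨t, ⟨unitInterval.nonneg', unitInterval.le_one'⟩, rfl⟩
    · rintro ⟨t, _, rfl⟩; exact ⟨t, rfl⟩
  rw [h2]
  exact image_closure_subset_closure_image (𝓔.φ i).continuous

theorem closure_o (i : ι) : closure (𝓔.o i) = 𝓔.c i :=
  Subset.antisymm ((c_compact 𝓔 i).isClosed.closure_subset_iff.mpr (o_sub_c 𝓔 i))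
    (c_sub_closure_o 𝓔 i)

theorem end0_notMem_o (i j : ι) : 𝓔.φ i 0 ∉ 𝓔.o j := by
  intro h
  rcases eq_or_ne i j with rfl | hij
  · obtain ⟨t, ht, he⟩ := h
    have := 𝓔.inj i he
    rw [this] at ht
    exact lt_irrefl _ ht.1
  · have h1 : 𝓔.φ i 0 ∈ closure (𝓔.o i) := c_sub_closure_o 𝓔 i ⟨0, rfl⟩
    obtain ⟨z, hz1, hz2⟩ := mem_closure_iff.mp h1 _ (o_open 𝓔 j) h
    exact (𝓔.disj i j hij).le_bot ⟨hz2, hz1⟩

theorem end1_notMem_o (i j : ι) : 𝓔.φ i 1 ∉ 𝓔.o j := by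
  intro h
  rcases eq_or_ne i j with rfl | hij
  · obtain ⟨t, ht, he⟩ := h
    have := 𝓔.inj i he
    rw [this] at ht
    exact lt_irrefl _ ht.2
  · have h1 : 𝓔.φ i 1 ∈ closure (𝓔.o i) := c_sub_closure_o 𝓔 i ⟨1, rfl⟩
    obtain ⟨z, hz1, hz2⟩ := mem_closure_iff.mp h1 _ (o_open 𝓔 j) h
    exact (𝓔.disj i j hij).le_bot ⟨hz2, hz1⟩

theorem end0_mem_G (i : ι) : 𝓔.φ i 0 ∈ 𝓔.G := by
  intro h
  obtain ⟨j, hj⟩ := mem_iUnion.mp h
  exact end0_notMem_o 𝓔 i j hj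

theorem end1_mem_G (i : ι) : 𝓔.φ i 1 ∈ 𝓔.G := by
  intro h
  obtain ⟨j, hj⟩ := mem_iUnion.mp h
  exact end1_notMem_o 𝓔 i j hj

theorem G_closed : IsClosed 𝓔.G := (isOpen_iUnion fun i => o_open 𝓔 i).isClosed_compl

theorem Y_closed (S : Set ι) : IsClosed (𝓔.Y S) :=
  (isOpen_biUnion fun i _ => o_open 𝓔 i).isClosed_compl

theorem R_closed (S : Set ι) : IsClosed (𝓔.R S) := isClosed_closure

theorem G_sub_Y (S : Set ι) : 𝓔.G ⊆ 𝓔.Y S := by
  intro x hx h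
  obtain ⟨i, _, hi⟩ := mem_iUnion₂.mp h
  exact hx (mem_iUnion.mpr ⟨i, hi⟩)

theorem notMem_o_of_mem_G {x : X} (hx : x ∈ 𝓔.G) (i : ι) : x ∉ 𝓔.o i :=
  fun h => hx (mem_iUnion.mpr ⟨i, h⟩)

theorem notMem_o_of_mem_Y {S : Set ι} {x : X} (hx : x ∈ 𝓔.Y S) {i : ι} (hi : i ∈ S) : x ∉ 𝓔.o i :=
  fun h => hx (mem_iUnion₂.mpr ⟨i, hi, h⟩)

theorem Y_inter_R (S : Set ι) {x : X} (hx : x ∈ 𝓔.Y S) (hx' : x ∈ 𝓔.R S) : x ∈ 𝓔.G := by
  intro h
  obtain ⟨j, hj⟩ := mem_iUnion.mp h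
  have hjS : j ∉ S := fun hjS => notMem_o_of_mem_Y 𝓔 hx hjS hj
  obtain ⟨z, hz1, hz2⟩ := mem_closure_iff.mp hx' _ (o_open 𝓔 j) hj
  obtain ⟨i, hi, hzi⟩ := mem_iUnion₂.mp hz2
  have hij : i ≠ j := fun h => hjS (h ▸ hi)
  exact (𝓔.disj i j hij).le_bot ⟨hzi, hz1⟩

theorem R_compl_sub_Y (S : Set ι) : (𝓔.R S)ᶜ ⊆ 𝓔.Y S := by
  intro x hx h
  exact hx (subset_closure h)

theorem R_union (S T : Set ι) : 𝓔.R (S ∪ T) = 𝓔.R S ∪ 𝓔.R T := by
  unfold EdgeSys.R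
  rw [← closure_union, biUnion_union]

theorem R_mono {S T : Set ι} (h : S ⊆ T) : 𝓔.R S ⊆ 𝓔.R T :=
  closure_mono (biUnion_subset_biUnion_left h)

theorem Y_anti {S T : Set ι} (h : S ⊆ T) : 𝓔.Y T ⊆ 𝓔.Y S :=
  compl_subset_compl.mpr (biUnion_subset_biUnion_left h)

theorem thin_mono {S T : Set ι} (h : S ⊆ T) (hT : 𝓔.Thin T) : 𝓔.Thin S :=
  fun C hC hC' => hT C hC (hC'.trans (R_mono 𝓔 h))

/-- components of closed sets are closed -/
theorem isClosed_ccIn {F : Set X} (hF : IsClosed F) (x : X) :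
    IsClosed (connectedComponentIn F x) := by
  by_cases hx : x ∈ F
  · have h1 : IsPreconnected (closure (connectedComponentIn F x)) :=
      isPreconnected_connectedComponentIn.closure
    have h2 : closure (connectedComponentIn F x) ⊆ F :=
      closure_minimal (connectedComponentIn_subset F x) hF
    have h3 := h1.subset_connectedComponentIn (subset_closure (mem_connectedComponentIn hx)) h2
    exact closure_subset_iff_isClosed.mp h3
  · rw [connectedComponentIn_eq_empty hx]; exact isClosed_empty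

theorem comp_closed (S : Set ι) (x : X) : IsClosed (𝓔.comp S x) := isClosed_ccIn (Y_closed 𝓔 S) x

theorem comp_sub_Y (S : Set ι) (x : X) : 𝓔.comp S x ⊆ 𝓔.Y S := connectedComponentIn_subset _ _

theorem comp_eq {S : Set ι} {x y : X} (h : y ∈ 𝓔.comp S x) : 𝓔.comp S x = 𝓔.comp S y :=
  connectedComponentIn_eq h

theorem mem_comp_self {S : Set ι} {x : X} (h : x ∈ 𝓔.Y S) : x ∈ 𝓔.comp S x :=
  mem_connectedComponentIn h

theorem mem_comp_symm {S : Set ι} {x y : X} (h : y ∈ 𝓔.comp S x) : x ∈ 𝓔.comp S y := by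
  have hx : x ∈ 𝓔.Y S := by
    by_contra hx
    rw [EdgeSys.comp, connectedComponentIn_eq_empty hx] at h
    exact h
  rw [← comp_eq 𝓔 h]
  exact mem_comp_self 𝓔 hx

theorem sub_comp {S : Set ι} {C : Set X} {x : X} (hC : C ⊆ 𝓔.Y S) (hCc : IsPreconnected C)
    (hx : x ∈ C) : C ⊆ 𝓔.comp S x := hCc.subset_connectedComponentIn hx hC

theorem comp_preconn (S : Set ι) (x : X) : IsPreconnected (𝓔.comp S x) :=
  isPreconnected_connectedComponentIn

end H98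

end Pool.Agent.EU
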